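import Pool.Agent.H308R3.DM.Stmts

set_option autoImplicit false

namespace Pool.Agent.H260R4.DMForm

open Finset Pool.Agent.H308R3.DM

noncomputable section

/-- the profile -/
def ph (m i : ℕ) : ℝ := Real.sin (Real.pi * i / (m + 1))

theorem ph_le_one (m i : ℕ) : ph m i ^ 2 ≤ 1 := by
  have := Real.abs_sin_le_one (Real.pi * i / (m + 1))
  rw [ph, ← sq_abs]
  exact pow_le_one₀ (abs_nonneg _) this

theorem ph_ge (m i : ℕ) (h1 : i ≤ m) (L : ℕ) (h2 : L ≤ 4 * i) (h3 : L ≤ 4 * (m + 1 - i)) :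
    (L : ℝ) / (2 * (m + 1)) ≤ ph m i := by
  have hm : (0 : ℝ) < m + 1 := by positivity
  have hpi := Real.pi_pos
  by_cases hc : 2 * i ≤ m + 1
  · have hx0 : 0 ≤ Real.pi * i / (m + 1) := by positivity
    have hx1 : Real.pi * i / (m + 1) ≤ Real.pi / 2 := by
      rw [div_le_div_iff₀ hm (by norm_num)]
      have : (2 : ℝ) * i ≤ m + 1 := by exact_mod_cast hc
      nlinarith
    have h := Real.mul_le_sin hx0 hx1
    refine le_trans ?_ h
    have e : 2 / Real.pi * (Real.pi * i / (m + 1)) = 2 * i / (m + 1) := by field_simp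
    rw [e, div_le_div_iff₀ (by positivity) hm]
    have : (L : ℝ) ≤ 4 * i := by exact_mod_cast h2
    nlinarith
  · have hc' : m + 1 ≤ 2 * i := by omega
    have hi : i ≤ m + 1 := by omega
    have hcast : ((m + 1 - i : ℕ) : ℝ) = m + 1 - i := by
      rw [Nat.cast_sub hi]; push_cast; ring
    have hx0 : 0 ≤ Real.pi * ((m + 1 - i : ℕ) : ℝ) / (m + 1) := by positivity
    have hx1 : Real.pi * ((m + 1 - i : ℕ) : ℝ) / (m + 1) ≤ Real.pi / 2 := by
      rw [div_le_div_iff₀ hm (by norm_num), hcast]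
      have : ((m : ℝ) + 1) ≤ 2 * i := by exact_mod_cast hc'
      nlinarith
    have h := Real.mul_le_sin hx0 hx1
    have hs : Real.sin (Real.pi * ((m + 1 - i : ℕ) : ℝ) / (m + 1)) = ph m i := by
      rw [ph, ← Real.sin_pi_sub, hcast]
      congr 1
      field_simp
      ring
    rw [hs] at h
    refine le_trans ?_ h
    have e : 2 / Real.pi * (Real.pi * ((m + 1 - i : ℕ) : ℝ) / (m + 1))
        = 2 * ((m + 1 - i : ℕ) : ℝ) / (m + 1) := by field_simp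
    rw [e, div_le_div_iff₀ (by positivity) hm]
    have : (L : ℝ) ≤ 4 * ((m + 1 - i : ℕ) : ℝ) := by exact_mod_cast h3
    nlinarith

/-- a set of indices of positive proportion carries a positive proportion of the mass -/
theorem block (m : ℕ) (I : Finset ℕ) (hI : I ⊆ Icc 1 m) (k : ℝ) (hk : 0 < k)
    (hL : k * (m + 1) ≤ I.card) :
    k ^ 3 / 8 * ∑ i ∈ Icc 1 m, ph m i ^ 2 ≤ ∑ i ∈ I, ph m i ^ 2 := by
  set L := I.card with hLdef
  have hm : (0 : ℝ) < m + 1 := by positivity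
  let J := I.filter fun i => L ≤ 4 * i ∧ L ≤ 4 * (m + 1 - i)
  have hJ : L ≤ 2 * J.card := by
    have h1 : I ⊆ J ∪ (Icc 1 (L / 4) ∪ (Icc 1 (L / 4)).image fun j => m + 1 - j) := by
      intro i hi
      have hi' := mem_Icc.1 (hI hi)
      simp only [J, mem_union, mem_filter, mem_Icc, mem_image]
      by_cases h1 : L ≤ 4 * i
      · by_cases h2 : L ≤ 4 * (m + 1 - i)
        · exact Or.inl ⟨hi, h1, h2⟩
        · right; right
          exact ⟨m + 1 - i, ⟨by omega, by omega⟩, by omega⟩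
      · right; left
        exact ⟨by omega, by omega⟩
    have h2 := card_le_card h1
    have h3 := card_union_le J (Icc 1 (L / 4) ∪ (Icc 1 (L / 4)).image fun j => m + 1 - j)
    have h4 := card_union_le (Icc 1 (L / 4)) ((Icc 1 (L / 4)).image fun j => m + 1 - j)
    have h5 : ((Icc 1 (L / 4)).image fun j => m + 1 - j).card ≤ (Icc 1 (L / 4)).card :=
      card_image_le
    have h6 : (Icc 1 (L / 4)).card = L / 4 := by simp
    omega
  have hL' : (L : ℝ) ≤ 2 * J.card := by exact_mod_cast hJ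
  have h1 : ∑ i ∈ J, ((L : ℝ) / (2 * (m + 1))) ^ 2 ≤ ∑ i ∈ J, ph m i ^ 2 := by
    apply sum_le_sum
    intro i hi
    have hi2 := (mem_filter.1 hi)
    have hi3 := mem_Icc.1 (hI hi2.1)
    exact pow_le_pow_left₀ (by positivity) (ph_ge m i hi3.2 L hi2.2.1 hi2.2.2) 2
  rw [sum_const, nsmul_eq_mul] at h1
  have h2 : ∑ i ∈ J, ph m i ^ 2 ≤ ∑ i ∈ I, ph m i ^ 2 :=
    sum_le_sum_of_subset_of_nonneg (filter_subset _ _) fun i _ _ => sq_nonneg _
  have h3 : ∑ i ∈ Icc 1 m, ph m i ^ 2 ≤ m + 1 := by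
    calc ∑ i ∈ Icc 1 m, ph m i ^ 2 ≤ ∑ i ∈ Icc 1 m, (1 : ℝ) :=
          sum_le_sum fun i _ => ph_le_one m i
      _ = m := by simp
      _ ≤ m + 1 := by linarith
  have hk3 : k ^ 3 * (m + 1) ^ 3 ≤ (L : ℝ) ^ 3 := by
    rw [← mul_pow]
    exact pow_le_pow_left₀ (by positivity) hL 3
  have h4 : k ^ 3 / 8 * (m + 1) ≤ (J.card : ℝ) * ((L : ℝ) / (2 * (m + 1))) ^ 2 := by
    have e : (J.card : ℝ) * ((L : ℝ) / (2 * (m + 1))) ^ 2
        = (J.card * (L : ℝ) ^ 2) / (4 * (m + 1) ^ 2) := by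
      field_simp
      ring
    rw [e, le_div_iff₀ (by positivity)]
    have h5 : (L : ℝ) ^ 3 ≤ 2 * (J.card * (L : ℝ) ^ 2) := by
      have : (L : ℝ) * (L : ℝ) ^ 2 ≤ 2 * J.card * (L : ℝ) ^ 2 :=
        mul_le_mul_of_nonneg_right hL' (sq_nonneg _)
      nlinarith
    nlinarith
  calc k ^ 3 / 8 * ∑ i ∈ Icc 1 m, ph m i ^ 2 ≤ k ^ 3 / 8 * (m + 1) :=
        mul_le_mul_of_nonneg_left h3 (by positivity)
    _ ≤ _ := h4.trans (h1.trans h2)

/-- the defect -/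
def dfc (m : ℕ) (g : ℕ → ℝ) : ℝ :=
  ∑ i ∈ Icc 1 m, (g i) ^ 2 - (∑ i ∈ Icc 1 m, g i * ph m i) ^ 2 / (∑ i ∈ Icc 1 m, ph m i ^ 2)

theorem ph_pos (m : ℕ) (hm : 1 ≤ m) : 0 < ∑ i ∈ Icc 1 m, ph m i ^ 2 := by
  apply sum_pos'
  · intro i _; exact sq_nonneg _
  · refine ⟨1, by simp [hm], ?_⟩
    have h := ph_ge m 1 hm 1 (by norm_num) (by omega)
    have h2 : (0 : ℝ) < ((1 : ℕ) : ℝ) / (2 * (m + 1)) := by positivity
    exact pow_pos (lt_of_lt_of_le h2 h) 2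

theorem dfc_eq (m : ℕ) (hm : 1 ≤ m) (g : ℕ → ℝ) :
    ∑ i ∈ Icc 1 m, (g i - (∑ i ∈ Icc 1 m, g i * ph m i) / (∑ i ∈ Icc 1 m, ph m i ^ 2) * ph m i) ^ 2
      = dfc m g := by
  have hP := ph_pos m hm
  set P := ∑ i ∈ Icc 1 m, ph m i ^ 2 with hPdef
  set G := ∑ i ∈ Icc 1 m, g i * ph m i with hGdef
  have e : ∀ i ∈ Icc 1 m, (g i - G / P * ph m i) ^ 2
      = g i ^ 2 - 2 * (G / P) * (g i * ph m i) + (G / P) ^ 2 * ph m i ^ 2 := by
    intro i _; ring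
  rw [sum_congr rfl e, sum_add_distrib, sum_sub_distrib, ← mul_sum, ← mul_sum, ← hPdef, ← hGdef,
    dfc, ← hPdef, ← hGdef]
  field_simp
  ring

theorem dfc_nonneg (m : ℕ) (hm : 1 ≤ m) (g : ℕ → ℝ) : 0 ≤ dfc m g := by
  rw [← dfc_eq m hm]
  exact sum_nonneg fun i _ => sq_nonneg _

theorem dfc_block (m : ℕ) (hm : 1 ≤ m) (g : ℕ → ℝ) (I : Finset ℕ) (hI : I ⊆ Icc 1 m) (k : ℝ)
    (hk : k * ∑ i ∈ Icc 1 m, ph m i ^ 2 ≤ ∑ i ∈ I, ph m i ^ 2) (h0 : ∀ i ∈ I, g i = 0) :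
    k * ∑ i ∈ Icc 1 m, (g i) ^ 2 ≤ dfc m g := by
  have hP := ph_pos m hm
  have h1 : ∑ i ∈ Icc 1 m, g i * ph m i = ∑ i ∈ Icc 1 m \ I, g i * ph m i := by
    symm
    apply sum_subset sdiff_subset
    intro i hi hi2
    have : i ∈ I := by
      by_contra h
      exact hi2 (mem_sdiff.2 ⟨hi, h⟩)
    rw [h0 i this, zero_mul]
  have h2 : (∑ i ∈ Icc 1 m \ I, g i * ph m i) ^ 2
      ≤ (∑ i ∈ Icc 1 m \ I, g i ^ 2) * ∑ i ∈ Icc 1 m \ I, ph m i ^ 2 :=
    sum_mul_sq_le_sq_mul_sq _ _ _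
  have h3 : ∑ i ∈ Icc 1 m \ I, g i ^ 2 ≤ ∑ i ∈ Icc 1 m, g i ^ 2 :=
    sum_le_sum_of_subset_of_nonneg sdiff_subset fun i _ _ => sq_nonneg _
  have h4 : ∑ i ∈ Icc 1 m \ I, ph m i ^ 2 + ∑ i ∈ I, ph m i ^ 2 = ∑ i ∈ Icc 1 m, ph m i ^ 2 :=
    sum_sdiff hI
  have h5 : 0 ≤ ∑ i ∈ Icc 1 m \ I, ph m i ^ 2 := sum_nonneg fun i _ => sq_nonneg _
  have hg : 0 ≤ ∑ i ∈ Icc 1 m, g i ^ 2 := sum_nonneg fun i _ => sq_nonneg _
  rw [dfc, h1]
  set P := ∑ i ∈ Icc 1 m, ph m i ^ 2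
  have h6 : (∑ i ∈ Icc 1 m \ I, g i * ph m i) ^ 2 / P ≤ (1 - k) * ∑ i ∈ Icc 1 m, g i ^ 2 := by
    rw [div_le_iff₀ hP]
    calc _ ≤ (∑ i ∈ Icc 1 m, g i ^ 2) * ∑ i ∈ Icc 1 m \ I, ph m i ^ 2 :=
          h2.trans (mul_le_mul_of_nonneg_right h3 h5)
      _ ≤ (∑ i ∈ Icc 1 m, g i ^ 2) * ((1 - k) * P) :=
          mul_le_mul_of_nonneg_left (by linarith) hg
      _ = _ := by ring
  linarith

theorem dfc_mix (m : ℕ) (hm : 1 ≤ m) (g : ℕ → ℝ) (I : Finset ℕ) (hI : I ⊆ Icc 1 m) (k : ℝ)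
    (hk : k * ∑ i ∈ Icc 1 m, ph m i ^ 2 ≤ ∑ i ∈ I, ph m i ^ 2) :
    k * (∑ i ∈ Icc 1 m, (g i) ^ 2 - dfc m g) ≤ 2 * ∑ i ∈ I, (g i) ^ 2 + 2 * dfc m g := by
  have hP := ph_pos m hm
  have he := dfc_eq m hm g
  set P := ∑ i ∈ Icc 1 m, ph m i ^ 2 with hPd
  set G := ∑ i ∈ Icc 1 m, g i * ph m i with hGd
  have h1 : ∑ i ∈ Icc 1 m, (g i) ^ 2 - dfc m g = (G / P) ^ 2 * P := by
    rw [dfc, ← hPd, ← hGd]
    field_simp
    ring
  rw [h1]
  have h2 : ∑ i ∈ I, (G / P * ph m i) ^ 2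
      ≤ ∑ i ∈ I, (2 * (g i) ^ 2 + 2 * (g i - G / P * ph m i) ^ 2) := by
    apply sum_le_sum
    intro i _
    nlinarith [sq_nonneg (g i + (g i - G / P * ph m i))]
  rw [sum_add_distrib, ← mul_sum, ← mul_sum] at h2
  have h3 : ∑ i ∈ I, (g i - G / P * ph m i) ^ 2 ≤ dfc m g := by
    rw [← he]
    exact sum_le_sum_of_subset_of_nonneg hI fun i _ _ => sq_nonneg _
  have h4 : ∑ i ∈ I, (G / P * ph m i) ^ 2 = (G / P) ^ 2 * ∑ i ∈ I, ph m i ^ 2 := by
    rw [mul_sum]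
    exact sum_congr rfl fun i _ => by ring
  have h5 : (G / P) ^ 2 * (k * P) ≤ (G / P) ^ 2 * ∑ i ∈ I, ph m i ^ 2 :=
    mul_le_mul_of_nonneg_left hk (sq_nonneg _)
  nlinarith

/-! ### lines -/

/-- start of the row `v` -/
def st (u1 v : ℤ) : ℤ := u1 - (u1 - v) % 2

/-- the box condition -/
def InB (u1 v1 : ℤ) (a b : ℕ) (H : Finset Pt) : Prop :=
  ∀ x ∈ H, u1 < x.1 ∧ x.1 < u1 + a ∧ v1 < x.2 ∧ x.2 < v1 + b ∧ (x.1 - x.2) % 2 = 0

theorem rowsum (u1 v1 : ℤ) (a b : ℕ) (H : Finset Pt) (hH : InB u1 v1 a b H) (F : Pt → ℝ)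
    (hF : ∀ x, x ∉ H → F x = 0) :
    ∑ x ∈ H, F x = ∑ v ∈ Icc v1 (v1 + b), ∑ i ∈ Icc 1 (a / 2), F (st u1 v + 2 * (i : ℤ), v) := by
  let e : ℤ × ℕ → Pt := fun p => (st u1 p.1 + 2 * (p.2 : ℤ), p.1)
  have he : Function.Injective e := by
    rintro ⟨p1, p2⟩ ⟨q1, q2⟩ h
    simp only [e, Prod.mk.injEq] at h
    obtain ⟨h1, h2⟩ := h
    subst h2
    have : p2 = q2 := by omega
    rw [this]
  have h1 : ∑ v ∈ Icc v1 (v1 + b), ∑ i ∈ Icc 1 (a / 2), F (st u1 v + 2 * (i : ℤ), v)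
      = ∑ p ∈ Icc v1 (v1 + b) ×ˢ Icc 1 (a / 2), F (e p) := by
    rw [sum_product]
  rw [h1, ← sum_image (f := F) (g := e) (fun _ _ _ _ h => he h)]
  apply sum_subset
  · intro x hx
    obtain ⟨h2, h3, h4, h5, h6⟩ := hH x hx
    rw [mem_image]
    refine ⟨(x.2, ((x.1 - st u1 x.2) / 2).toNat), ?_, ?_⟩
    · rw [mem_product, mem_Icc, mem_Icc]
      simp only [st]
      refine ⟨⟨by omega, by omega⟩, by omega, by omega⟩
    · simp only [e, st]
      ext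
      · simp only; omega
      · rfl
  · intro x _ hx
    exact hF x hx

theorem card_blk (u1 v α : ℤ) (a w : ℕ) (h1 : u1 < α) (h2 : α + w < u1 + a) :
    w ≤ 2 * ((Icc 1 (a / 2)).filter fun i : ℕ =>
      α ≤ st u1 v + 2 * (i : ℤ) ∧ st u1 v + 2 * (i : ℤ) ≤ α + w).card := by
  have h3 : (range ((w + 1) / 2)).image (fun j => ((α - st u1 v + 1) / 2).toNat + j)
      ⊆ (Icc 1 (a / 2)).filter fun i : ℕ =>
        α ≤ st u1 v + 2 * (i : ℤ) ∧ st u1 v + 2 * (i : ℤ) ≤ α + w := by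
    intro i hi
    obtain ⟨j, hj, rfl⟩ := mem_image.1 hi
    rw [mem_range] at hj
    rw [mem_filter, mem_Icc]
    simp only [st]
    omega
  have h4 := card_le_card h3
  rw [card_image_of_injective _ (fun x y hxy => by simpa using hxy), card_range] at h4
  omega

theorem rows (hG : TaskGap) (κ : ℝ) (hκ : 0 < κ) (M : ℕ) (u1 v1 α γ : ℤ) (a b w : ℕ)
    (hM : 1 ≤ M) (ha2 : 2 ≤ a) (haM : a ≤ 2 * M)
    (hw : κ * M ≤ w) (h1 : u1 < α) (h2 : α + w < u1 + a)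
    (H : Finset Pt) (hH : InB u1 v1 a b H) (f : Pt → ℝ) (hf : ∀ x, x ∉ H → f x = 0) :
    ∃ D : ℝ, 0 ≤ D ∧
      ∑ x ∈ H, f x * (f (x.1 - 2, x.2) + 2 * f x + f (x.1 + 2, x.2)) ≤
        4 * Real.cos (Real.pi / (a + 2)) ^ 2 * ∑ x ∈ H, f x ^ 2 - D / (M : ℝ) ^ 2 ∧
      ((∀ x ∈ H, x ∉ boxc α γ w) →
        κ ^ 3 / 512 * ∑ x ∈ H, (if γ ≤ x.2 ∧ x.2 ≤ γ + w then f x ^ 2 else 0) ≤ D) ∧
      κ ^ 3 / 512 * (∑ x ∈ H, f x ^ 2 - D) ≤
        2 * ∑ x ∈ H, (if α ≤ x.1 ∧ x.1 ≤ α + w then f x ^ 2 else 0) + 2 * D := by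
  classical
  set m := a / 2 with hmdef
  have hm : 1 ≤ m := by omega
  have hmM : m ≤ M := by omega
  have hma : 2 * (m + 1) ≤ a + 2 := by omega
  let g : ℤ → ℕ → ℝ := fun v i => f (st u1 v + 2 * (i : ℤ), v)
  have hout : ∀ v, ∀ t : ℤ, (t ≤ u1 ∨ u1 + a ≤ t) → f (t, v) = 0 := by
    intro v t ht
    apply hf
    intro hx
    obtain ⟨h3, h4, _⟩ := hH _ hx
    simp only at h3 h4
    omega
  have hg0 : ∀ v, g v 0 = 0 := by
    intro v
    apply hout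
    left
    simp only [st]; omega
  have hgm : ∀ v, g v (m + 1) = 0 := by
    intro v
    apply hout
    right
    simp only [st]; push_cast; omega
  let I : ℤ → Finset ℕ := fun v => (Icc 1 m).filter fun i : ℕ =>
      α ≤ st u1 v + 2 * (i : ℤ) ∧ st u1 v + 2 * (i : ℤ) ≤ α + w
  have hI : ∀ v, I v ⊆ Icc 1 m := fun v => filter_subset _ _
  have hk : ∀ v, κ ^ 3 / 512 * ∑ i ∈ Icc 1 m, ph m i ^ 2 ≤ ∑ i ∈ I v, ph m i ^ 2 := by
    intro v
    have h3 : (w : ℝ) ≤ 2 * ((I v).card : ℝ) := by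
      exact_mod_cast card_blk u1 v α a w h1 h2
    have h4 : κ / 4 * ((m : ℝ) + 1) ≤ ((I v).card : ℝ) := by
      have h5 : (m : ℝ) + 1 ≤ 2 * M := by
        have : m + 1 ≤ 2 * M := by omega
        exact_mod_cast this
      nlinarith
    have h5 := block m (I v) (hI v) (κ / 4) (by positivity) h4
    have e : (κ / 4) ^ 3 / 8 = κ ^ 3 / 512 := by ring
    rw [e] at h5
    exact h5
  refine ⟨∑ v ∈ Icc v1 (v1 + b), dfc m (g v), sum_nonneg fun v _ => dfc_nonneg m hm _, ?_, ?_, ?_⟩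
  · have e1 : ∑ x ∈ H, f x * (f (x.1 - 2, x.2) + 2 * f x + f (x.1 + 2, x.2))
        = ∑ v ∈ Icc v1 (v1 + b), ∑ i ∈ Icc 1 m, g v i * (g v (i - 1) + 2 * g v i + g v (i + 1)) := by
      rw [rowsum u1 v1 a b H hH _ (fun x hx => by rw [hf x hx, zero_mul])]
      apply sum_congr rfl
      intro v _
      apply sum_congr rfl
      intro i hi
      have hi1 := (mem_Icc.1 hi).1
      simp only [g]
      have e2 : st u1 v + 2 * (i : ℤ) - 2 = st u1 v + 2 * ((i - 1 : ℕ) : ℤ) := by omega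
      have e3 : st u1 v + 2 * (i : ℤ) + 2 = st u1 v + 2 * ((i + 1 : ℕ) : ℤ) := by
        push_cast; ring
      rw [e2, e3]
    have e2 : ∑ x ∈ H, f x ^ 2 = ∑ v ∈ Icc v1 (v1 + b), ∑ i ∈ Icc 1 m, g v i ^ 2 :=
      rowsum u1 v1 a b H hH _ (fun x hx => by rw [hf x hx]; ring)
    rw [e1, e2, mul_sum, sum_div, ← sum_sub_distrib]
    apply sum_le_sum
    intro v _
    have h3 := hG m hm (g v) (hg0 v) (hgm v)
    have h4 : ∑ i ∈ Icc 1 m, g v i * (g v (i - 1) + 2 * g v i + g v (i + 1))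
        = 4 * ∑ i ∈ Icc 1 m, g v i * ((g v (i - 1) + 2 * g v i + g v (i + 1)) / 4) := by
      rw [mul_sum]
      exact sum_congr rfl fun i _ => by ring
    rw [h4]
    have h5 : dfc m (g v) / (M : ℝ) ^ 2 ≤ 4 * ((1 / (4 * (m : ℝ) ^ 2)) * dfc m (g v)) := by
      have hd := dfc_nonneg m hm (g v)
      have hm' : (0 : ℝ) < m := by exact_mod_cast hm
      have hmM' : (m : ℝ) ≤ M := by exact_mod_cast hmM
      have e : 4 * ((1 / (4 * (m : ℝ) ^ 2)) * dfc m (g v)) = dfc m (g v) / (m : ℝ) ^ 2 := by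
        field_simp
      rw [e]
      exact div_le_div_of_nonneg_left hd (by positivity) (pow_le_pow_left₀ hm'.le hmM' 2)
    have h6 : Real.cos (Real.pi / (2 * ((m : ℝ) + 1))) ^ 2 ≤ Real.cos (Real.pi / (a + 2)) ^ 2 := by
      have hpi := Real.pi_pos
      have hma' : 2 * ((m : ℝ) + 1) ≤ a + 2 := by exact_mod_cast hma
      have hm' : (1 : ℝ) ≤ m := by exact_mod_cast hm
      have h7 : Real.pi / (a + 2) ≤ Real.pi / (2 * ((m : ℝ) + 1)) :=
        div_le_div_of_nonneg_left hpi.le (by positivity) hma'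
      have h8 : Real.pi / (2 * ((m : ℝ) + 1)) ≤ Real.pi / 2 :=
        div_le_div_of_nonneg_left hpi.le (by norm_num) (by linarith)
      have h9 : 0 ≤ Real.cos (Real.pi / (2 * ((m : ℝ) + 1))) :=
        Real.cos_nonneg_of_mem_Icc ⟨by
          have : 0 ≤ Real.pi / (2 * ((m : ℝ) + 1)) := by positivity
          linarith, h8⟩
      apply pow_le_pow_left₀ h9
      apply Real.cos_le_cos_of_nonneg_of_le_pi (by positivity) (by linarith) h7
    have h7 : 0 ≤ ∑ i ∈ Icc 1 m, g v i ^ 2 := sum_nonneg fun i _ => sq_nonneg _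
    have h8 : dfc m (g v) = ∑ i ∈ Icc 1 m, (g v i) ^ 2
      - (∑ i ∈ Icc 1 m, g v i * Real.sin (Real.pi * i / (m + 1))) ^ 2
        / (∑ i ∈ Icc 1 m, Real.sin (Real.pi * i / (m + 1)) ^ 2) := rfl
    rw [← h8] at h3
    have h9 := mul_le_mul_of_nonneg_right h6 h7
    nlinarith
  · intro hb
    have e2 : ∑ x ∈ H, (if γ ≤ x.2 ∧ x.2 ≤ γ + w then f x ^ 2 else 0)
        = ∑ v ∈ Icc v1 (v1 + b), ∑ i ∈ Icc 1 m,
          (if γ ≤ v ∧ v ≤ γ + w then g v i ^ 2 else 0) :=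
      rowsum u1 v1 a b H hH _ (fun x hx => by rw [hf x hx]; simp)
    rw [e2, mul_sum]
    apply sum_le_sum
    intro v _
    by_cases hv : γ ≤ v ∧ v ≤ γ + w
    · simp only [if_pos hv]
      apply dfc_block m hm (g v) (I v) (hI v) _ (hk v)
      intro i hi
      have hi2 := (mem_filter.1 hi).2
      apply hf
      intro hx
      exact hb _ hx ⟨hi2.1, hi2.2, hv.1, hv.2⟩
    · simp only [if_neg hv, sum_const_zero, mul_zero]
      exact dfc_nonneg m hm _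
  · have e2 : ∑ x ∈ H, f x ^ 2 = ∑ v ∈ Icc v1 (v1 + b), ∑ i ∈ Icc 1 m, g v i ^ 2 :=
      rowsum u1 v1 a b H hH _ (fun x hx => by rw [hf x hx]; ring)
    have e3 : ∑ x ∈ H, (if α ≤ x.1 ∧ x.1 ≤ α + w then f x ^ 2 else 0)
        = ∑ v ∈ Icc v1 (v1 + b), ∑ i ∈ I v, g v i ^ 2 := by
      rw [rowsum u1 v1 a b H hH _ (fun x hx => by rw [hf x hx]; simp)]
      apply sum_congr rfl
      intro v _
      rw [sum_filter]
    rw [e2, e3, ← sum_sub_distrib, mul_sum, mul_sum, mul_sum, ← sum_add_distrib]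
    apply sum_le_sum
    intro v _
    exact dfc_mix m hm (g v) (I v) (hI v) _ (hk v)

/-! ### shifting -/

theorem shift (H W : Finset Pt) (t : Pt) (F : Pt → ℝ) (hF : ∀ x, x ∉ H → F x = 0)
    (hW : ∀ x ∈ H, x - t ∈ W) : ∑ x ∈ W, F (x + t) = ∑ x ∈ H, F x := by
  classical
  rw [← sum_image (f := F) (g := fun x => x + t) (fun _ _ _ _ h => add_right_cancel h)]
  symm
  apply sum_subset
  · intro x hx
    rw [mem_image]
    exact ⟨x - t, hW x hx, by simp⟩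
  · intro x _ hx
    exact hF x hx

theorem key (H : Finset Pt) (f : Pt → ℝ) (hf : ∀ x, x ∉ H → f x = 0) :
    2 * ∑ x ∈ H, ∑ s : Stp, f x * f (x + dv s) ≤
      ∑ x ∈ H, f x * (f (x.1 - 2, x.2) + 2 * f x + f (x.1 + 2, x.2)) +
      ∑ x ∈ H, f x * (f (x.1, x.2 - 2) + 2 * f x + f (x.1, x.2 + 2)) := by
  classical
  let e1 : Pt := (1, 0)
  let e2 : Pt := (0, 1)
  let W : Finset Pt := H.image (fun x => x - e1) ∪ H.image (fun x => x + e1) ∪
    (H.image (fun x => x - e2) ∪ H.image (fun x => x + e2))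
  have hW1 : ∀ x ∈ H, x - e1 ∈ W := fun x hx =>
    mem_union_left _ (mem_union_left _ (mem_image_of_mem _ hx))
  have hW2 : ∀ x ∈ H, x - (-e1) ∈ W := fun x hx => by
    rw [sub_neg_eq_add]
    exact mem_union_left _ (mem_union_right _ (mem_image_of_mem (fun x => x + e1) hx))
  have hW3 : ∀ x ∈ H, x - e2 ∈ W := fun x hx =>
    mem_union_right _ (mem_union_left _ (mem_image_of_mem _ hx))
  have hW4 : ∀ x ∈ H, x - (-e2) ∈ W := fun x hx => by
    rw [sub_neg_eq_add]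
    exact mem_union_right _ (mem_union_right _ (mem_image_of_mem (fun x => x + e2) hx))
  -- products
  have hp : ∀ (t r : Pt), (∀ x ∈ H, x - t ∈ W) →
      ∑ x ∈ W, f (x + t) * f (x + t + r) = ∑ x ∈ H, f x * f (x + r) := by
    intro t r ht
    exact shift H W t (fun x => f x * f (x + r)) (fun x hx => by rw [hf x hx, zero_mul]) ht
  have h0 : 0 ≤ ∑ x ∈ W, (f (x + e1) + f (x + -e1) - f (x + e2) - f (x + -e2)) ^ 2 :=
    sum_nonneg fun x _ => sq_nonneg _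
  have h1 : ∑ x ∈ W, (f (x + e1) + f (x + -e1) - f (x + e2) - f (x + -e2)) ^ 2
      = ∑ x ∈ H, (f x * f (x + 0) + f x * f (x + 0) + f x * f (x + 0) + f x * f (x + 0)
        + f x * f (x + (-2, 0)) + f x * f (x + (2, 0))
        + f x * f (x + (0, -2)) + f x * f (x + (0, 2))
        - 2 * (f x * f (x + (-1, 1))) - 2 * (f x * f (x + (-1, -1)))
        - 2 * (f x * f (x + (1, 1))) - 2 * (f x * f (x + (1, -1)))) := by
    simp only [sum_add_distrib, sum_sub_distrib, ← mul_sum]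
    rw [← hp e1 (-2, 0) hW1, ← hp (-e1) (2, 0) hW2, ← hp e2 (0, -2) hW3, ← hp (-e2) (0, 2) hW4,
      ← hp e1 (-1, 1) hW1, ← hp e1 (-1, -1) hW1, ← hp (-e1) (1, 1) hW2, ← hp (-e1) (1, -1) hW2]
    have a1 := hp e1 0 hW1
    have a2 := hp (-e1) 0 hW2
    have a3 := hp e2 0 hW3
    have a4 := hp (-e2) 0 hW4
    have a5 : ∑ x ∈ H, f x * f (x + 0) + ∑ x ∈ H, f x * f (x + 0) + ∑ x ∈ H, f x * f (x + 0)
        + ∑ x ∈ H, f x * f (x + 0) = ∑ x ∈ W, f (x + e1) * f (x + e1 + 0)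
        + ∑ x ∈ W, f (x + -e1) * f (x + -e1 + 0) + ∑ x ∈ W, f (x + e2) * f (x + e2 + 0)
        + ∑ x ∈ W, f (x + -e2) * f (x + -e2 + 0) := by
      rw [a1, a2, a3, a4]
    rw [a5]
    simp only [mul_sum, ← sum_add_distrib, ← sum_sub_distrib]
    apply sum_congr rfl
    intro x _
    have b1 : x + e1 + 0 = x + e1 := add_zero _
    have b2 : x + -e1 + 0 = x + -e1 := add_zero _
    have b3 : x + e2 + 0 = x + e2 := add_zero _
    have b4 : x + -e2 + 0 = x + -e2 := add_zero _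
    have c1 : x + e1 + (-2, 0) = x + -e1 := by
      ext <;> simp [e1] <;> ring
    have c2 : x + -e1 + (2, 0) = x + e1 := by
      ext <;> simp [e1] <;> ring
    have c3 : x + e2 + (0, -2) = x + -e2 := by
      ext <;> simp [e2] <;> ring
    have c4 : x + -e2 + (0, 2) = x + e2 := by
      ext <;> simp [e2] <;> ring
    have d1 : x + e1 + (-1, 1) = x + e2 := by
      ext <;> simp [e1, e2] <;> ring
    have d2 : x + e1 + (-1, -1) = x + -e2 := by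
      ext <;> simp [e1, e2] <;> ring
    have d3 : x + -e1 + (1, 1) = x + e2 := by
      ext <;> simp [e1, e2] <;> ring
    have d4 : x + -e1 + (1, -1) = x + -e2 := by
      ext <;> simp [e1, e2] <;> ring
    rw [b1, b2, b3, b4, c1, c2, c3, c4, d1, d2, d3, d4]
    ring
  rw [h1] at h0
  rw [mul_sum, ← sum_add_distrib]
  have h2 : ∑ x ∈ H, (f x * (f (x.1 - 2, x.2) + 2 * f x + f (x.1 + 2, x.2)) +
      f x * (f (x.1, x.2 - 2) + 2 * f x + f (x.1, x.2 + 2)))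
      - ∑ x ∈ H, 2 * ∑ s : Stp, f x * f (x + dv s)
      = ∑ x ∈ H, (f x * f (x + 0) + f x * f (x + 0) + f x * f (x + 0) + f x * f (x + 0)
        + f x * f (x + (-2, 0)) + f x * f (x + (2, 0))
        + f x * f (x + (0, -2)) + f x * f (x + (0, 2))
        - 2 * (f x * f (x + (-1, 1))) - 2 * (f x * f (x + (-1, -1)))
        - 2 * (f x * f (x + (1, 1))) - 2 * (f x * f (x + (1, -1)))) := by
    rw [← sum_sub_distrib]
    apply sum_congr rfl
    intro x _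
    have g1 : x + (0 : Pt) = x := add_zero _
    have g2 : x + ((-2, 0) : Pt) = (x.1 - 2, x.2) := by ext <;> simp <;> ring
    have g3 : x + ((2, 0) : Pt) = (x.1 + 2, x.2) := by ext <;> simp
    have g4 : x + ((0, -2) : Pt) = (x.1, x.2 - 2) := by ext <;> simp <;> ring
    have g5 : x + ((0, 2) : Pt) = (x.1, x.2 + 2) := by ext <;> simp
    have g6 : ∑ s : Stp, f x * f (x + dv s) = f x * f (x + (1, 1)) + f x * f (x + (1, -1))
        + (f x * f (x + (-1, 1)) + f x * f (x + (-1, -1))) := by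
      rw [Fintype.sum_prod_type]
      simp [dv, sg]
    rw [g1, g2, g3, g4, g5, g6]
    ring
  linarith

theorem taskForm : TaskGap → TaskForm := by
  classical
  intro hG κ0 hκ0
  set κ := min κ0 1 with hκdef
  have hκ : 0 < κ := lt_min hκ0 one_pos
  have hκ1 : κ ≤ 1 := min_le_right _ _
  set k := κ ^ 3 / 512 with hkdef
  have hk : 0 < k := by positivity
  have hk1 : k ≤ 1 := by
    have : κ ^ 3 ≤ 1 := pow_le_one₀ hκ.le hκ1
    rw [hkdef]; linarith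
  refine ⟨k ^ 2 / 24, by positivity, 2, by norm_num, ?_⟩
  intro M a b w u1 v1 α γ hM0 hMa haM hMb hbM hw h1 h2 h3 h4
  have hM : 1 ≤ M := by omega
  have hMr : (2 : ℝ) ≤ M := by exact_mod_cast hM0
  have hw' : κ * M ≤ w := by
    have : κ * M ≤ κ0 * M := mul_le_mul_of_nonneg_right (min_le_left _ _) (by positivity)
    exact this.trans hw
  have hcos : ∀ n : ℕ, 2 ≤ n → (1 : ℝ) / 2 ≤ Real.cos (Real.pi / (n + 2)) ^ 2 := by
    intro n hn
    have hpi := Real.pi_pos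
    have hn' : (2 : ℝ) ≤ n := by exact_mod_cast hn
    have h5 : Real.pi / (n + 2) ≤ Real.pi / 4 :=
      div_le_div_of_nonneg_left hpi.le (by norm_num) (by linarith)
    have h6 : Real.cos (Real.pi / 4) ≤ Real.cos (Real.pi / (n + 2)) :=
      Real.cos_le_cos_of_nonneg_of_le_pi (by positivity) (by linarith) h5
    rw [Real.cos_pi_div_four] at h6
    have h7 : (Real.sqrt 2 / 2) ^ 2 ≤ Real.cos (Real.pi / (n + 2)) ^ 2 :=
      pow_le_pow_left₀ (by positivity) h6 2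
    have h8 : (Real.sqrt 2 / 2) ^ 2 = 1 / 2 := by
      rw [div_pow, Real.sq_sqrt (by norm_num)]; norm_num
    rw [h8] at h7
    exact h7
  refine ⟨?_, ?_⟩
  · have h5 := hcos a (by omega)
    have h6 := hcos b (by omega)
    have h7 : k ^ 2 / 24 / (M : ℝ) ^ 2 ≤ 1 / 2 := by
      rw [div_le_iff₀ (by positivity)]
      have : k ^ 2 ≤ 1 := pow_le_one₀ hk.le hk1
      nlinarith
    linarith
  · intro H hHb f hf
    have hH : InB u1 v1 a b H := by
      intro x hx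
      obtain ⟨h5, h6, h7, h8, h9⟩ := (hHb x hx).1
      exact ⟨h5, h6, h7, h8, h9⟩
    obtain ⟨D, hD0, hD1, hD2, hD3⟩ := rows hG κ hκ M u1 v1 α γ a b w hM (by omega) haM hw' h1 h2
      H hH f hf
    let H' : Finset Pt := H.image Prod.swap
    let f' : Pt → ℝ := fun x => f x.swap
    have hsw : ∀ x : Pt, x ∈ H' ↔ x.swap ∈ H := by
      intro x
      simp only [H', mem_image]
      constructor
      · rintro ⟨y, hy, rfl⟩
        simpa using hy
      · intro hx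
        exact ⟨x.swap, hx, by simp⟩
    have hH' : InB v1 u1 b a H' := by
      intro x hx
      obtain ⟨h5, h6, h7, h8, h9⟩ := hH _ ((hsw x).1 hx)
      simp only [Prod.fst_swap, Prod.snd_swap] at h5 h6 h7 h8 h9
      exact ⟨h7, h8, h5, h6, by omega⟩
    have hf' : ∀ x, x ∉ H' → f' x = 0 := by
      intro x hx
      apply hf
      rwa [hsw] at hx
    obtain ⟨E, hE0, hE1, _, hE3⟩ := rows hG κ hκ M v1 u1 γ α b a w hM (by omega) hbM hw' h3 h4
      H' hH' f' hf'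
    have hsum : ∀ F : Pt → ℝ, ∑ x ∈ H', F x = ∑ x ∈ H, F x.swap := by
      intro F
      exact sum_image (fun _ _ _ _ h => Prod.swap_injective h)
    rw [hsum, hsum] at hE1
    rw [hsum, hsum] at hE3
    simp only [f', Prod.swap_swap, Prod.fst_swap, Prod.snd_swap, Prod.swap_prod_mk] at hE1 hE3
    have hmix := hD2 (fun x hx => (hHb x hx).2)
    have hkey := key H f hf
    set N := ∑ x ∈ H, f x ^ 2 with hN
    have hN0 : 0 ≤ N := sum_nonneg fun x _ => sq_nonneg _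
    set Mh := ∑ x ∈ H, (if γ ≤ x.2 ∧ x.2 ≤ γ + w then f x ^ 2 else 0) with hMh
    have hfin : k ^ 2 * N ≤ 3 * (D + E) := by
      have h5 : k * (k * (N - E)) ≤ k * (2 * Mh + 2 * E) := mul_le_mul_of_nonneg_left hE3 hk.le
      have h6 : k ^ 2 * E ≤ E := by
        have : k ^ 2 ≤ 1 := pow_le_one₀ hk.le hk1
        nlinarith
      have h7 : k * E ≤ E := by nlinarith
      nlinarith
    have h5 : (D + E) / (M : ℝ) ^ 2 ≥ (k ^ 2 / 3) * N / (M : ℝ) ^ 2 := by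
      apply div_le_div_of_nonneg_right _ (by positivity)
      linarith
    have h6 : D / (M : ℝ) ^ 2 + E / (M : ℝ) ^ 2 = (D + E) / (M : ℝ) ^ 2 := by ring
    have h7 : k ^ 2 / 24 / (M : ℝ) ^ 2 * N * 8 = (k ^ 2 / 3) * N / (M : ℝ) ^ 2 := by ring
    nlinarith

end

end Pool.Agent.H260R4.DMForm
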