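import Pool.Agent.H647R3.GDef

set_option autoImplicit false

open Set Topology

namespace Pool.Agent.H260R4.TBd

open H647R3.GDS H647R3.Fac

universe u

/-- a subset whose span is infinite-dimensional contains a linearly independent sequence -/
theorem exists_li_seq {V : Type u} [AddCommGroup V] [Module ℝ V] (S : Set V)
    (h : ¬ FiniteDimensional ℝ (Submodule.span ℝ S)) :
    ∃ v : ℕ → V, (∀ n, v n ∈ S) ∧ LinearIndependent ℝ v := by
  obtain ⟨b, hbS, hspan, hli⟩ := exists_linearIndependent ℝ S
  have hinf : b.Infinite := by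
    intro hfin
    apply h
    rw [← hspan]
    exact FiniteDimensional.span_of_finite ℝ hfin
  have : Infinite b := hinf.to_subtype
  refine ⟨fun n => (Infinite.natEmbedding b n : V), fun n => hbS (Infinite.natEmbedding b n).2, ?_⟩
  exact hli.comp _ (Infinite.natEmbedding b).injective

/-- a linear functional with prescribed values on a linearly independent sequence -/
theorem exists_functional {V : Type u} [AddCommGroup V] [Module ℝ V] (v : ℕ → V)
    (h : LinearIndependent ℝ v) : ∃ f : V →ₗ[ℝ] ℝ, ∀ n, f (v n) = n := by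
  classical
  let b := Module.Basis.span h
  let f0 : Submodule.span ℝ (Set.range v) →ₗ[ℝ] ℝ := b.constr ℝ (fun n => (n : ℝ))
  obtain ⟨f, hf⟩ := LinearMap.exists_extend f0
  refine ⟨f, fun n => ?_⟩
  have h1 : f (v n) = (f ∘ₗ (Submodule.span ℝ (Set.range v)).subtype) (b n) := by
    simp only [LinearMap.comp_apply, Submodule.subtype_apply]
    congr 1
    exact congrArg Subtype.val (Module.Basis.span_apply h n).symm
  rw [h1, hf]
  simp only [f0, Module.Basis.constr_basis]

theorem taskBd : TaskBd.{u} := by
  intro X _ _ B hB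
  by_contra hcon
  obtain ⟨v, hv, hli⟩ := exists_li_seq _ hcon
  choose p hpB hpv using hv
  obtain ⟨th, hth⟩ := exists_functional v hli
  -- a good index
  have hc : ∀ m, {x : ℝ | (p m).1.2 (th, x) ≠ th ((p m).1.1)}.Countable := by
    intro m
    have h1 : {j : JJ X | (p m).1.2 j ≠ j.1 (p m).1.1}.Countable := (p m).2
    have h2 := h1.preimage (f := fun x : ℝ => ((th, x) : JJ X))
      (fun a b hab => by simpa using hab)
    exact h2
  have hu : (⋃ m, {x : ℝ | (p m).1.2 (th, x) ≠ th ((p m).1.1)}).Countable :=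
    countable_iUnion hc
  obtain ⟨ξ, hξ⟩ : ∃ ξ : ℝ, ξ ∉ ⋃ m, {x : ℝ | (p m).1.2 (th, x) ≠ th ((p m).1.1)} := by
    by_contra hall
    have : (univ : Set ℝ).Countable := hu.mono fun x _ => not_not.1 fun hx => hall ⟨x, hx⟩
    exact Cardinal.not_countable_real this
  have hval : ∀ m : ℕ, (p m).1.2 (th, ξ) = m := by
    intro m
    by_contra hne
    apply hξ
    rw [mem_iUnion]
    refine ⟨m, ?_⟩
    intro heq
    apply hne
    rw [heq]
    have : (p m).1.1 = v m := hpv m
    rw [this, hth]
  -- the coordinate functional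
  let L : Th X →L[ℝ] ℝ :=
    { toFun := fun q => q.1.2 (th, ξ)
      map_add' := fun a b => rfl
      map_smul' := fun c a => rfl
      cont := by
        have h1 : Continuous fun q : Th X => q.1.2 := continuous_snd.comp continuous_subtype_val
        exact (continuous_apply ((th, ξ) : JJ X)).comp h1 }
  have hb := hB.image L
  rw [NormedSpace.isVonNBounded_iff] at hb
  obtain ⟨C, hC⟩ := hb.exists_norm_le
  obtain ⟨n, hn⟩ := exists_nat_gt C
  have h1 := hC (L (p n)) ⟨p n, hpB n, rfl⟩
  have h2 : L (p n) = (n : ℝ) := hval n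
  rw [h2, Real.norm_eq_abs, abs_of_nonneg (Nat.cast_nonneg n)] at h1
  linarith

end Pool.Agent.H260R4.TBd
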